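import Mathlib

/-!
# Regular induced subgraphs: a random graph with uniform forward degrees (MP_58b8d6_co)

A graph on `Fin n` is described by its forward neighbourhoods.  The forward neighbourhood `N` of a
vertex with `m` later vertices has weight `1 / ((m + 1) * choose m |N|)` (Polya urn): the number of
forward neighbours in any set `T` of later vertices is then uniform on `0, …, |T|`.
-/

set_option autoImplicit false

open Finset

namespace Pool.Agent.RegInd

/-! ### The Polya weights -/

/-- weight of a set of `j` elements of a set of `m` elements -/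
noncomputable def pw (m j : ℕ) : ℝ := (j.factorial : ℝ) * ((m - j).factorial : ℝ) / ((m + 1).factorial : ℝ)

lemma pw_nonneg (m j : ℕ) : 0 ≤ pw m j := by unfold pw; positivity

lemma pw_add {m j : ℕ} (h : j ≤ m) : pw (m + 1) j + pw (m + 1) (j + 1) = pw m j := by
  unfold pw
  obtain ⟨k, rfl⟩ := Nat.exists_eq_add_of_le h
  have e1 : j + k + 1 - j = k + 1 := by omega
  have e2 : j + k + 1 - (j + 1) = k := by omega
  have e3 : j + k - j = k := by omega
  rw [e1, e2, e3]
  have h1 : ((j + k + 1 + 1).factorial : ℝ) = ((j + k + 2 : ℕ) : ℝ) * ((j + k + 1).factorial : ℝ) := by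
    rw [← Nat.cast_mul, ← Nat.factorial_succ]
  have h2 : ((k + 1).factorial : ℝ) = ((k + 1 : ℕ) : ℝ) * (k.factorial : ℝ) := by
    rw [← Nat.cast_mul, ← Nat.factorial_succ]
  have h3 : ((j + 1).factorial : ℝ) = ((j + 1 : ℕ) : ℝ) * (j.factorial : ℝ) := by
    rw [← Nat.cast_mul, ← Nat.factorial_succ]
  rw [h1, h2, h3]
  have h4 : ((j + k + 1).factorial : ℝ) ≠ 0 := by positivity
  have h5 : ((j + k + 2 : ℕ) : ℝ) ≠ 0 := by positivity
  field_simp
  push_cast
  ring

open Classical in
/-- real indicator -/
noncomputable def ind (p : Prop) : ℝ := if p then 1 else 0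

lemma ind_nonneg (p : Prop) : 0 ≤ ind p := by unfold ind; split_ifs <;> norm_num

lemma ind_of {p : Prop} (h : p) : ind p = 1 := by simp [ind, h]

lemma ind_not {p : Prop} (h : ¬ p) : ind p = 0 := by simp [ind, h]

lemma ind_mono {p q : Prop} (h : p → q) : ind p ≤ ind q := by
  by_cases hp : p
  · rw [ind_of hp, ind_of (h hp)]
  · rw [ind_not hp]; exact ind_nonneg q

/-- The number of elements in `T` is uniform. -/
lemma sum_pw_powerset {α : Type} [DecidableEq α] (T U : Finset α) (hTU : Disjoint T U) (c : ℤ) :
    ∑ N ∈ (T ∪ U).powerset, pw (T ∪ U).card N.card * ind (((T ∩ N).card : ℤ) = c) ≤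
      1 / ((T.card : ℝ) + 1) := by
  induction U using Finset.induction_on with
  | empty =>
    rw [union_empty]
    by_cases hc : ∃ k : ℕ, k ≤ T.card ∧ (k : ℤ) = c
    · obtain ⟨k, hk, rfl⟩ := hc
      calc ∑ N ∈ T.powerset, pw T.card N.card * ind (((T ∩ N).card : ℤ) = (k : ℤ))
          = ∑ N ∈ T.powersetCard k, pw T.card k := by
            rw [powersetCard_eq_filter, sum_filter]
            refine Finset.sum_congr rfl fun N hN => ?_
            rw [inter_eq_right.2 (mem_powerset.1 hN)]
            by_cases h : N.card = k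
            · rw [if_pos h, ind_of (by exact_mod_cast h), mul_one, h]
            · rw [if_neg h, ind_not (by exact_mod_cast h), mul_zero]
        _ = (T.card.choose k : ℝ) * pw T.card k := by
            rw [Finset.sum_const, Finset.card_powersetCard, nsmul_eq_mul]
        _ = 1 / ((T.card : ℝ) + 1) := by
            unfold pw
            have h1 := Nat.choose_mul_factorial_mul_factorial hk
            have h2 : ((T.card + 1).factorial : ℝ) = ((T.card : ℝ) + 1) * (T.card.factorial : ℝ) := by
              rw [Nat.factorial_succ]; push_cast; ring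
            have h3 : ((T.card.choose k : ℝ)) * (k.factorial : ℝ) * ((T.card - k).factorial : ℝ) =
                (T.card.factorial : ℝ) := by exact_mod_cast h1
            rw [h2, ← h3]
            have h4 : (T.card : ℝ) + 1 ≠ 0 := by positivity
            have h5 : (T.card.choose k : ℝ) ≠ 0 := by
              have := Nat.choose_pos hk
              positivity
            have h6 : (k.factorial : ℝ) ≠ 0 := by positivity
            have h7 : ((T.card - k).factorial : ℝ) ≠ 0 := by positivity
            field_simp
        _ ≤ _ := le_rfl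
    · have : ∑ N ∈ T.powerset, pw T.card N.card * ind (((T ∩ N).card : ℤ) = c) = 0 := by
        refine Finset.sum_eq_zero fun N hN => ?_
        rw [ind_not, mul_zero]
        intro h
        exact hc ⟨(T ∩ N).card, card_le_card inter_subset_left, h⟩
      rw [this]
      positivity
  | insert a U ha ih =>
    have haT : a ∉ T := by
      rw [disjoint_insert_right] at hTU
      exact hTU.1
    have hTU' : Disjoint T U := by
      rw [disjoint_insert_right] at hTU
      exact hTU.2
    have haTU : a ∉ T ∪ U := by simp [haT, ha]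
    rw [union_insert, sum_powerset_insert haTU, ← sum_add_distrib, card_insert_of_notMem haTU]
    refine le_trans (le_of_eq ?_) (ih hTU')
    refine Finset.sum_congr rfl fun N hN => ?_
    have hN' : N ⊆ T ∪ U := mem_powerset.1 hN
    have haN : a ∉ N := fun h => haTU (hN' h)
    have e1 : T ∩ insert a N = T ∩ N := by
      ext x
      simp only [mem_inter, mem_insert]
      constructor
      · rintro ⟨hx, rfl | hx2⟩
        · exact absurd hx haT
        · exact ⟨hx, hx2⟩
      · rintro ⟨hx, hx2⟩
        exact ⟨hx, Or.inr hx2⟩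
    rw [e1, card_insert_of_notMem haN, ← add_mul, pw_add (card_le_card hN')]

lemma sum_pw_powerset_eq_one {α : Type} [DecidableEq α] (U : Finset α) :
    ∑ N ∈ U.powerset, pw U.card N.card = 1 := by
  induction U using Finset.induction_on with
  | empty => simp [pw]
  | insert a U ha ih =>
    rw [sum_powerset_insert ha, ← sum_add_distrib, card_insert_of_notMem ha, ← ih]
    refine Finset.sum_congr rfl fun N hN => ?_
    have haN : a ∉ N := fun h => ha (mem_powerset.1 hN h)
    rw [card_insert_of_notMem haN, pw_add (card_le_card (mem_powerset.1 hN))]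

lemma sum_pw_univ (n : ℕ) : ∑ N : Finset (Fin n), pw n N.card = 1 := by
  have := sum_pw_powerset_eq_one (univ : Finset (Fin n))
  rwa [card_univ, Fintype.card_fin, powerset_univ] at this

lemma sum_pw_inter (n : ℕ) (T : Finset (Fin n)) (c : ℤ) :
    ∑ N : Finset (Fin n), pw n N.card * ind (((T ∩ N).card : ℤ) = c) ≤ 1 / ((T.card : ℝ) + 1) := by
  have := sum_pw_powerset T Tᶜ disjoint_compl_right c
  rwa [union_compl, card_univ, Fintype.card_fin, powerset_univ] at this

/-! ### Graphs given by forward neighbourhoods -/

/-- forward neighbourhoods of all vertices -/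
def D : ℕ → Type
  | 0 => Unit
  | n + 1 => Finset (Fin n) × D n

/-- expectation -/
noncomputable def EX : (n : ℕ) → (D n → ℝ) → ℝ
  | 0, f => f ()
  | n + 1, f => ∑ N : Finset (Fin n), pw n N.card * EX n (fun G => f (N, G))

/-- adjacency -/
def adj : (n : ℕ) → D n → Fin n → Fin n → Prop
  | 0, _ => fun _ _ => False
  | n + 1, G => fun i j =>
      Fin.cases (motive := fun _ => Prop) (Fin.cases (motive := fun _ => Prop) False
        (fun j' => j' ∈ G.1) j)
        (fun i' => Fin.cases (motive := fun _ => Prop) (i' ∈ G.1) (fun j' => adj n G.2 i' j') j) i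

lemma adj_zero_succ {n : ℕ} (G : D (n + 1)) (j : Fin n) : adj (n + 1) G 0 j.succ ↔ j ∈ G.1 := by
  simp [adj]

lemma adj_zero_zero {n : ℕ} (G : D (n + 1)) : ¬ adj (n + 1) G 0 0 := by
  simp [adj]

lemma adj_succ_zero {n : ℕ} (G : D (n + 1)) (i : Fin n) : adj (n + 1) G i.succ 0 ↔ i ∈ G.1 := by
  simp [adj]

lemma adj_succ_succ {n : ℕ} (G : D (n + 1)) (i j : Fin n) :
    adj (n + 1) G i.succ j.succ ↔ adj n G.2 i j := by
  simp [adj]

lemma adj_irrefl : ∀ (n : ℕ) (G : D n) (i : Fin n), ¬ adj n G i i
  | 0, _, i => i.elim0
  | n + 1, G, i => by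
      refine Fin.cases ?_ (fun i' => ?_) i
      · exact adj_zero_zero G
      · rw [adj_succ_succ]
        exact adj_irrefl n G.2 i'

lemma adj_symm : ∀ (n : ℕ) (G : D n) (i j : Fin n), adj n G i j → adj n G j i
  | 0, _, i, _ => i.elim0
  | n + 1, G, i, j => by
      refine Fin.cases ?_ (fun i' => ?_) i
      · refine Fin.cases ?_ (fun j' => ?_) j
        · exact id
        · rw [adj_zero_succ, adj_succ_zero]
          exact id
      · refine Fin.cases ?_ (fun j' => ?_) j
        · rw [adj_zero_succ, adj_succ_zero]
          exact id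
        · rw [adj_succ_succ, adj_succ_succ]
          exact adj_symm n G.2 i' j'

/-- the graph -/
def graph (n : ℕ) (G : D n) : SimpleGraph (Fin n) where
  Adj := adj n G
  symm := ⟨fun i j h => adj_symm n G i j h⟩
  loopless := ⟨fun i => adj_irrefl n G i⟩

/-! ### Expectation -/

lemma EX_mono : ∀ (n : ℕ) (f g : D n → ℝ), (∀ G, f G ≤ g G) → EX n f ≤ EX n g
  | 0, _, _, h => h ()
  | n + 1, f, g, h => Finset.sum_le_sum fun N _ => mul_le_mul_of_nonneg_left
      (EX_mono n _ _ fun G => h (N, G)) (pw_nonneg _ _)

lemma EX_one : ∀ (n : ℕ), EX n (fun _ => 1) = 1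
  | 0 => rfl
  | n + 1 => by
      unfold EX
      simp only [EX_one n, mul_one]
      exact sum_pw_univ n

lemma EX_zero : ∀ (n : ℕ), EX n (fun _ => 0) = 0
  | 0 => rfl
  | n + 1 => by
      unfold EX
      simp only [EX_zero n, mul_zero, sum_const_zero]

lemma EX_add : ∀ (n : ℕ) (f g : D n → ℝ), EX n (fun G => f G + g G) = EX n f + EX n g
  | 0, _, _ => rfl
  | n + 1, f, g => by
      unfold EX
      rw [← sum_add_distrib]
      refine Finset.sum_congr rfl fun N _ => ?_
      rw [EX_add n (fun G => f (N, G)) (fun G => g (N, G)), mul_add]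

lemma EX_sum (n : ℕ) {ι : Type} (s : Finset ι) (f : ι → D n → ℝ) :
    EX n (fun G => ∑ i ∈ s, f i G) = ∑ i ∈ s, EX n (f i) := by
  classical
  induction s using Finset.induction_on with
  | empty => simp [EX_zero]
  | insert a s ha ih =>
    simp only [sum_insert ha]
    rw [EX_add n (f a) (fun G => ∑ i ∈ s, f i G), ih]

/-! ### The probability of prescribed degrees -/

open Classical in
/-- the degree of `i` into `S` -/
noncomputable def deg (n : ℕ) (G : D n) (S : Finset (Fin n)) (i : Fin n) : ℕ :=
  (S.filter (adj n G i)).card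

open Classical in
/-- the elements of `S` after the first vertex -/
noncomputable def tailS {n : ℕ} (S : Finset (Fin (n + 1))) : Finset (Fin n) :=
  univ.filter (fun j => j.succ ∈ S)

lemma mem_tailS {n : ℕ} {S : Finset (Fin (n + 1))} {j : Fin n} : j ∈ tailS S ↔ j.succ ∈ S := by
  simp [tailS]

lemma card_filter_succ {n : ℕ} (S : Finset (Fin (n + 1))) (p : Fin (n + 1) → Prop)
    [DecidablePred p] [DecidablePred fun j : Fin n => p j.succ] :
    (S.filter p).card = (if (0 : Fin (n + 1)) ∈ S ∧ p 0 then 1 else 0) +
      ((tailS S).filter (fun j => p j.succ)).card := by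
  classical
  have h : (S.filter p) = ((if (0 : Fin (n + 1)) ∈ S ∧ p 0 then {0} else ∅) : Finset (Fin (n + 1))) ∪
      ((tailS S).filter (fun j => p j.succ)).map (Fin.succEmb n) := by
    ext i
    refine Fin.cases ?_ (fun i' => ?_) i
    · simp only [mem_filter, mem_union, mem_map, Fin.coe_succEmb]
      constructor
      · intro h
        left
        rw [if_pos h]
        simp
      · rintro (h | ⟨a, _, ha⟩)
        · split_ifs at h with h2
          · exact h2
          · simp at h
        · exact absurd ha (Fin.succ_ne_zero a)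
    · simp only [mem_filter, mem_union, mem_map, Fin.coe_succEmb, mem_tailS]
      constructor
      · intro h
        right
        exact ⟨i', h, rfl⟩
      · rintro (h | ⟨a, ha, hai⟩)
        · split_ifs at h with h2
          · simp at h
          · simp at h
        · rw [Fin.succ_inj] at hai
          subst hai
          exact ha
  rw [h, card_union_of_disjoint, card_map]
  · congr 1
    split_ifs <;> simp
  · rw [disjoint_left]
    intro x hx hx2
    rw [mem_map] at hx2
    obtain ⟨a, _, rfl⟩ := hx2
    split_ifs at hx with h2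
    · rw [mem_singleton] at hx
      exact Fin.succ_ne_zero a hx
    · simp at hx

lemma deg_zero {n : ℕ} (N : Finset (Fin n)) (G : D n) (S : Finset (Fin (n + 1))) :
    deg (n + 1) (N, G) S 0 = (tailS S ∩ N).card := by
  classical
  unfold deg
  rw [card_filter_succ, if_neg (fun h => adj_zero_zero _ h.2), zero_add]
  congr 1
  ext j
  simp only [mem_filter, mem_inter, adj_zero_succ]

lemma deg_succ {n : ℕ} (N : Finset (Fin n)) (G : D n) (S : Finset (Fin (n + 1))) (i : Fin n) :
    (deg (n + 1) (N, G) S i.succ : ℤ) = (if (0 : Fin (n + 1)) ∈ S ∧ i ∈ N then 1 else 0) +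
      deg n G (tailS S) i := by
  classical
  unfold deg
  rw [card_filter_succ]
  push_cast
  congr 1
  simp only [adj_succ_zero]

theorem EX_deg : ∀ (n : ℕ) (S : Finset (Fin n)) (c : Fin n → ℤ),
    EX n (fun G => ind (∀ i ∈ S, (deg n G S i : ℤ) = c i)) ≤ 1 / (S.card.factorial : ℝ)
  | 0, S, c => by
      have : S = ∅ := by ext i; exact i.elim0
      subst this
      simp [EX, ind]
  | n + 1, S, c => by
      classical
      have hcard : S.card = (if (0 : Fin (n + 1)) ∈ S then 1 else 0) + (tailS S).card := by
        have := card_filter_succ S (fun _ => True)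
        simpa using this
      unfold EX
      by_cases h0 : (0 : Fin (n + 1)) ∈ S
      · rw [if_pos h0] at hcard
        have hfac : (S.card.factorial : ℝ) =
            (((tailS S).card : ℝ) + 1) * ((tailS S).card.factorial : ℝ) := by
          rw [hcard, add_comm 1, Nat.factorial_succ]
          push_cast; ring
        have h1 : ∀ N : Finset (Fin n),
            EX n (fun G => ind (∀ i ∈ S, (deg (n + 1) (N, G) S i : ℤ) = c i)) ≤
              ind (((tailS S ∩ N).card : ℤ) = c 0) * (1 / ((tailS S).card.factorial : ℝ)) := by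
          intro N
          by_cases hN : ((tailS S ∩ N).card : ℤ) = c 0
          · rw [ind_of hN, one_mul]
            refine le_trans (EX_mono n _ _ fun G => ind_mono ?_)
              (EX_deg n (tailS S) (fun i => c i.succ - (if i ∈ N then 1 else 0)))
            intro h i hi
            have := h i.succ (mem_tailS.1 hi)
            rw [deg_succ] at this
            simp only [h0, true_and] at this
            rw [← this]
            ring
          · rw [ind_not hN, zero_mul, ← EX_zero n]
            refine EX_mono n _ _ fun G => ?_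
            rw [ind_not]
            intro h
            have := h 0 h0
            rw [deg_zero] at this
            exact hN this
        calc ∑ N : Finset (Fin n), pw n N.card *
              EX n (fun G => ind (∀ i ∈ S, (deg (n + 1) (N, G) S i : ℤ) = c i))
            ≤ ∑ N : Finset (Fin n), pw n N.card *
              (ind (((tailS S ∩ N).card : ℤ) = c 0) * (1 / ((tailS S).card.factorial : ℝ))) :=
              Finset.sum_le_sum fun N _ => mul_le_mul_of_nonneg_left (h1 N) (pw_nonneg _ _)
          _ = (∑ N : Finset (Fin n), pw n N.card * ind (((tailS S ∩ N).card : ℤ) = c 0)) *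
              (1 / ((tailS S).card.factorial : ℝ)) := by
              rw [Finset.sum_mul]
              exact Finset.sum_congr rfl fun N _ => by ring
          _ ≤ 1 / (((tailS S).card : ℝ) + 1) * (1 / ((tailS S).card.factorial : ℝ)) :=
              mul_le_mul_of_nonneg_right (sum_pw_inter n _ _) (by positivity)
          _ = 1 / (S.card.factorial : ℝ) := by
              rw [hfac]
              field_simp
      · rw [if_neg h0, zero_add] at hcard
        calc ∑ N : Finset (Fin n), pw n N.card *
              EX n (fun G => ind (∀ i ∈ S, (deg (n + 1) (N, G) S i : ℤ) = c i))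
            ≤ ∑ N : Finset (Fin n), pw n N.card * (1 / (S.card.factorial : ℝ)) := by
              refine Finset.sum_le_sum fun N _ => mul_le_mul_of_nonneg_left ?_ (pw_nonneg _ _)
              rw [hcard]
              refine le_trans (EX_mono n _ _ fun G => ind_mono ?_)
                (EX_deg n (tailS S) (fun i => c i.succ))
              intro h i hi
              have := h i.succ (mem_tailS.1 hi)
              rw [deg_succ] at this
              simpa [h0] using this
          _ = 1 / (S.card.factorial : ℝ) := by
              rw [← Finset.sum_mul, sum_pw_univ, one_mul]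

/-- First moment bound: if the expected number of regular sets of size at least `s₀` is less than
one, there is a graph without them. -/
theorem exists_graph (n s₀ : ℕ)
    (h : ∑ s ∈ Icc s₀ n, (n.choose s : ℝ) * ((s : ℝ) / (s.factorial : ℝ)) < 1) :
    ∃ G : SimpleGraph (Fin n), ∀ S : Finset (Fin n), ∀ d : ℕ,
      (∀ i ∈ S, Set.ncard {j | j ∈ S ∧ G.Adj i j} = d) → S.card < s₀ ∨ S.card = 0 := by
  classical
  by_contra hcon
  push Not at hcon
  have h1 : ∀ G : D n, (1 : ℝ) ≤ ∑ s ∈ Icc s₀ n, ∑ S ∈ (univ : Finset (Fin n)).powersetCard s,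
      ∑ d ∈ range s, ind (∀ i ∈ S, (deg n G S i : ℤ) = (d : ℤ)) := by
    intro G
    obtain ⟨S, d, hd, hS, hS0⟩ := hcon (graph n G)
    have hSn : S.card ≤ n := by
      have := card_le_univ S
      simpa using this
    have hdeg : ∀ i ∈ S, (deg n G S i : ℤ) = (d : ℤ) := by
      intro i hi
      have := hd i hi
      rw [← this]
      unfold deg
      rw [← Set.ncard_coe_finset]
      congr 2
      ext j
      simp [graph]
    obtain ⟨i, hi⟩ : S.Nonempty := card_pos.1 (Nat.pos_of_ne_zero hS0)
    have hdlt : d < S.card := by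
      have h2 := hdeg i hi
      have h3 : deg n G S i < S.card := by
        unfold deg
        apply card_lt_card
        rw [ssubset_iff_of_subset (filter_subset _ _)]
        exact ⟨i, hi, by simp [adj_irrefl]⟩
      have h4 : deg n G S i = d := by exact_mod_cast h2
      omega
    have nn : ∀ (S : Finset (Fin n)) (d : ℕ), 0 ≤ ind (∀ i ∈ S, (deg n G S i : ℤ) = (d : ℤ)) :=
      fun _ _ => ind_nonneg _
    calc (1 : ℝ) = ind (∀ i ∈ S, (deg n G S i : ℤ) = (d : ℤ)) := (ind_of hdeg).symm
      _ ≤ ∑ d ∈ range S.card, ind (∀ i ∈ S, (deg n G S i : ℤ) = (d : ℤ)) :=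
          single_le_sum (f := fun d : ℕ => ind (∀ i ∈ S, (deg n G S i : ℤ) = (d : ℤ)))
            (fun _ _ => nn _ _) (mem_range.2 hdlt)
      _ ≤ ∑ S' ∈ (univ : Finset (Fin n)).powersetCard S.card,
            ∑ d ∈ range S.card, ind (∀ i ∈ S', (deg n G S' i : ℤ) = (d : ℤ)) :=
          single_le_sum (f := fun S' : Finset (Fin n) =>
            ∑ d ∈ range S.card, ind (∀ i ∈ S', (deg n G S' i : ℤ) = (d : ℤ)))
            (fun _ _ => sum_nonneg fun _ _ => nn _ _) (by simp [mem_powersetCard])
      _ ≤ _ := single_le_sum (f := fun s : ℕ => ∑ S' ∈ (univ : Finset (Fin n)).powersetCard s,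
            ∑ d ∈ range s, ind (∀ i ∈ S', (deg n G S' i : ℤ) = (d : ℤ)))
            (fun _ _ => sum_nonneg fun _ _ => sum_nonneg fun _ _ => nn _ _) (mem_Icc.2 ⟨hS, hSn⟩)
  have h2 : (1 : ℝ) ≤ ∑ s ∈ Icc s₀ n, (n.choose s : ℝ) * ((s : ℝ) / (s.factorial : ℝ)) := by
    calc (1 : ℝ) = EX n (fun _ => 1) := (EX_one n).symm
      _ ≤ EX n (fun G => ∑ s ∈ Icc s₀ n, ∑ S ∈ (univ : Finset (Fin n)).powersetCard s,
            ∑ d ∈ range s, ind (∀ i ∈ S, (deg n G S i : ℤ) = (d : ℤ))) := EX_mono n _ _ h1
      _ = ∑ s ∈ Icc s₀ n, ∑ S ∈ (univ : Finset (Fin n)).powersetCard s,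
            ∑ d ∈ range s, EX n (fun G => ind (∀ i ∈ S, (deg n G S i : ℤ) = (d : ℤ))) := by
          rw [EX_sum]
          refine Finset.sum_congr rfl fun s _ => ?_
          rw [EX_sum]
          refine Finset.sum_congr rfl fun S _ => ?_
          rw [EX_sum]
      _ ≤ ∑ s ∈ Icc s₀ n, ∑ S ∈ (univ : Finset (Fin n)).powersetCard s,
            ∑ d ∈ range s, 1 / (s.factorial : ℝ) := by
          refine Finset.sum_le_sum fun s _ => Finset.sum_le_sum fun S hS =>
            Finset.sum_le_sum fun d _ => ?_
          have := EX_deg n S (fun _ => (d : ℤ))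
          rwa [(mem_powersetCard.1 hS).2] at this
      _ = _ := by
          refine Finset.sum_congr rfl fun s _ => ?_
          rw [sum_const, card_powersetCard, sum_const, card_range, card_univ, Fintype.card_fin]
          simp only [nsmul_eq_mul]
          ring
  linarith

end Pool.Agent.RegInd
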